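import Mathlib

/-!
# Tree times graph: products far below the expected gonality
-/

set_option autoImplicit false

namespace Pool.Agent.Results.MP_30555c_co.TreeTimesKite

open Finset
open scoped Classical

/-- The chip-firing Laplacian of a graph: the loss of chips at `v` when every vertex `w` is
fired `f w` times. -/
noncomputable def lap {V : Type} [Fintype V] (G : SimpleGraph V) (f : V → ℤ) (v : V) : ℤ :=
  ∑ w, if G.Adj v w then f v - f w else 0

/-- `D` is an effective divisor of positive rank: `D ≥ 0`, and for every vertex `v` the divisor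
`D - v` is equivalent to an effective divisor. -/
def PosRank {V : Type} [Fintype V] (G : SimpleGraph V) (D : V → ℤ) : Prop :=
  (∀ v, 0 ≤ D v) ∧ ∀ v, ∃ f : V → ℤ, ∀ w, 0 ≤ D w - (if w = v then 1 else 0) - lap G f w

/-- The divisorial gonality. -/
noncomputable def gon {V : Type} [Fintype V] (G : SimpleGraph V) : ℕ :=
  sInf {d : ℕ | ∃ D : V → ℤ, PosRank G D ∧ ∑ v, D v = (d : ℤ)}

/-- The complete graph on `0, ..., n` with the path `n, n + 1, ..., N - 1` attached. -/
def kite (n N : ℕ) : SimpleGraph (Fin N) where
  Adj i j := (i ≠ j ∧ i.val ≤ n ∧ j.val ≤ n) ∨ j.val = i.val + 1 ∨ i.val = j.val + 1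
  symm := ⟨by
    intro i j h
    rcases h with h | h | h
    · exact Or.inl ⟨h.1.symm, h.2.2, h.2.1⟩
    · exact Or.inr (Or.inr h)
    · exact Or.inr (Or.inl h)⟩
  loopless := ⟨by
    intro i h
    rcases h with h | h | h
    · exact h.1 rfl
    · omega
    · omega⟩

/-! ### The Laplacian -/

variable {V W : Type} [Fintype V] [Fintype W]

lemma lap_const (G : SimpleGraph V) (c : ℤ) (v : V) : lap G (fun _ => c) v = 0 := by
  simp [lap]

lemma lap_add (G : SimpleGraph V) (f g : V → ℤ) (v : V) :
    lap G (fun x => f x + g x) v = lap G f v + lap G g v := by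
  unfold lap
  rw [← Finset.sum_add_distrib]
  apply Finset.sum_congr rfl
  intro w _
  split_ifs <;> ring

lemma lap_mul (G : SimpleGraph V) (c : ℤ) (f : V → ℤ) (v : V) :
    lap G (fun x => c * f x) v = c * lap G f v := by
  unfold lap
  rw [Finset.mul_sum]
  apply Finset.sum_congr rfl
  intro w _
  split_ifs <;> ring

lemma lap_sum {ι : Type} (G : SimpleGraph V) (s : Finset ι) (f : ι → V → ℤ) (v : V) :
    lap G (fun x => ∑ i ∈ s, f i x) v = ∑ i ∈ s, lap G (f i) v := by
  unfold lap
  rw [Finset.sum_comm]
  apply Finset.sum_congr rfl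
  intro w _
  split_ifs
  · rw [Finset.sum_sub_distrib]
  · simp

lemma lap_box (T : SimpleGraph V) (H : SimpleGraph W) (f : V × W → ℤ) (y : V) (i : W) :
    lap (T □ H) f (y, i) = lap T (fun z => f (z, i)) y + lap H (fun j => f (y, j)) i := by
  unfold lap
  rw [Fintype.sum_prod_type]
  have h1 : ∀ z : V, ∀ j : W, (if (T □ H).Adj (y, i) (z, j) then f (y, i) - f (z, j) else 0) =
      (if i = j then (if T.Adj y z then f (y, i) - f (z, i) else 0) else 0) +
      (if y = z then (if H.Adj i j then f (y, i) - f (y, j) else 0) else 0) := by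
    intro z j
    rw [SimpleGraph.boxProd_adj]
    by_cases hy : y = z
    · subst hy
      by_cases hi : i = j
      · subst hi; simp
      · simp [hi]
    · by_cases hi : i = j
      · subst hi; simp [hy]
      · simp [hi, hy]
  simp_rw [h1, Finset.sum_add_distrib]
  congr 1
  · apply Finset.sum_congr rfl
    intro z _
    rw [Finset.sum_ite_eq]
    simp
  · rw [Finset.sum_comm]
    apply Finset.sum_congr rfl
    intro j _
    rw [Finset.sum_ite_eq]
    simp

/-! ### Moving a chip in a tree -/

lemma tree_edge (T : SimpleGraph V) (hT : T.IsTree) {r z : V} (h : T.Adj r z) :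
    ∃ g : V → ℤ, (∀ v, 0 ≤ g v ∧ g v ≤ 1) ∧
      ∀ v, lap T g v = (if v = r then 1 else 0) - (if v = z then 1 else 0) := by
  have hb : ¬ (T.deleteEdges {s(r, z)}).Reachable r z := by
    have := SimpleGraph.isAcyclic_iff_forall_adj_isBridge.1 hT.2 h
    exact SimpleGraph.isBridge_iff.1 this
  have hrz : r ≠ z := h.ne
  refine ⟨fun v => if (T.deleteEdges {s(r, z)}).Reachable r v then 1 else 0, ?_, ?_⟩
  · intro v
    dsimp only
    split_ifs <;> simp
  · intro v
    have key : ∀ x y : V, T.Adj x y → s(x, y) ≠ s(r, z) →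
        ((T.deleteEdges {s(r, z)}).Reachable r x ↔ (T.deleteEdges {s(r, z)}).Reachable r y) := by
      intro x y hxy hne
      have hadj : (T.deleteEdges {s(r, z)}).Adj x y := by
        rw [SimpleGraph.deleteEdges_adj]
        exact ⟨hxy, by simpa using hne⟩
      exact ⟨fun hx => hx.trans hadj.reachable, fun hy => hy.trans hadj.symm.reachable⟩
    unfold lap
    by_cases hvr : v = r
    · subst hvr
      rw [Finset.sum_eq_single z]
      · simp [h, hb, hrz]
      · intro w _ hw
        by_cases hvw : T.Adj v w
        · have := (key v w hvw (by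
            intro he
            rw [Sym2.eq_iff] at he
            rcases he with ⟨_, h2⟩ | ⟨h1, _⟩
            · exact hw h2
            · exact hrz h1)).1 (SimpleGraph.Reachable.refl _)
          simp [this]
        · simp [hvw]
      · simp
    · by_cases hvz : v = z
      · subst hvz
        rw [Finset.sum_eq_single r]
        · simp [h.symm, hb, hrz.symm]
        · intro w _ hw
          by_cases hvw : T.Adj v w
          · have := key v w hvw (by
              intro he
              rw [Sym2.eq_iff] at he
              rcases he with ⟨h1, _⟩ | ⟨_, h1⟩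
              · exact hvr h1
              · exact hw h1)
            simp [this]
          · simp [hvw]
        · simp
      · rw [Finset.sum_eq_zero]
        · simp [hvr, hvz]
        · intro w _
          by_cases hvw : T.Adj v w
          · have := key v w hvw (by
              intro he
              rw [Sym2.eq_iff] at he
              rcases he with ⟨h1, _⟩ | ⟨h1, _⟩
              · exact hvr h1
              · exact hvz h1)
            simp [this]
          · simp [hvw]

lemma tree_walk (T : SimpleGraph V) (hT : T.IsTree) {r z : V} (p : T.Walk r z) :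
    ∃ g : V → ℤ, (∀ v, 0 ≤ g v ∧ g v ≤ p.length) ∧
      ∀ v, lap T g v = (if v = r then 1 else 0) - (if v = z then 1 else 0) := by
  induction p with
  | nil => exact ⟨fun _ => 0, by simp, by intro v; rw [lap_const]; simp⟩
  | cons h p ih =>
    obtain ⟨g, hg, hl⟩ := ih
    obtain ⟨g', hg', hl'⟩ := tree_edge T hT h
    refine ⟨fun x => g' x + g x, ?_, ?_⟩
    · intro v
      have h1 := hg v
      have h2 := hg' v
      rw [SimpleGraph.Walk.length_cons]
      push_cast
      constructor
      · linarith [h1.1, h2.1]
      · linarith [h1.2, h2.2]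
    · intro v
      rw [lap_add, hl, hl']
      ring

lemma tree_move (T : SimpleGraph V) (hT : T.IsTree) (r z : V) :
    ∃ g : V → ℤ, (∀ v, 0 ≤ g v ∧ g v ≤ (Fintype.card V : ℤ) - 1) ∧
      ∀ v, lap T g v = (if v = r then 1 else 0) - (if v = z then 1 else 0) := by
  obtain ⟨p, hp⟩ := (hT.1 r z).exists_isPath
  obtain ⟨g, hg, hl⟩ := tree_walk T hT p
  refine ⟨g, ?_, hl⟩
  intro v
  have h1 := hg v
  have h2 := hp.length_lt
  refine ⟨h1.1, h1.2.trans ?_⟩
  have : (p.length : ℤ) < Fintype.card V := by exact_mod_cast h2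
  linarith

/-! ### The kite -/

lemma kite_ind (n N m : ℕ) (hm : n ≤ m) (hN : m + 1 < N) (i : Fin N) :
    lap (kite n N) (fun j => if j.val ≤ m then 1 else 0) i =
      (if i.val = m then 1 else 0) - (if i.val = m + 1 then 1 else 0) := by
  unfold lap
  by_cases h1 : i.val = m
  · rw [Finset.sum_eq_single (⟨m + 1, hN⟩ : Fin N)]
    · have : (kite n N).Adj i ⟨m + 1, hN⟩ := Or.inr (Or.inl (by simp [h1]))
      simp [this, h1]
    · intro j _ hj
      have hj' : j.val ≠ m + 1 := fun h => hj (Fin.ext h)
      by_cases hij : (kite n N).Adj i j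
      · have hjm : j.val ≤ m := by
          rcases hij with h | h | h
          · omega
          · omega
          · omega
        simp [hij, h1, hjm]
      · simp [hij]
    · simp
  · by_cases h2 : i.val = m + 1
    · rw [Finset.sum_eq_single (⟨m, by omega⟩ : Fin N)]
      · have : (kite n N).Adj i ⟨m, by omega⟩ := Or.inr (Or.inr (by simp [h2]))
        simp [this, h2]
      · intro j _ hj
        have hj' : j.val ≠ m := fun h => hj (Fin.ext h)
        by_cases hij : (kite n N).Adj i j
        · have hjm : ¬ j.val ≤ m := by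
            rcases hij with h | h | h
            · omega
            · omega
            · omega
          simp [hij, h2, hjm]
        · simp [hij]
      · simp
    · rw [Finset.sum_eq_zero]
      · simp [h1, h2]
      · intro j _
        by_cases hij : (kite n N).Adj i j
        · have hjm : (i.val ≤ m ↔ j.val ≤ m) := by
            rcases hij with h | h | h
            · omega
            · omega
            · omega
          simp [hij, hjm]
        · simp [hij]

/-- The firing that moves a chip from `n` to `n + k` along the path. -/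
def ramp (n N : ℕ) : ℕ → Fin N → ℤ
  | 0, _ => 0
  | k + 1, i => ramp n N k i + (if i.val ≤ n + k then 1 else 0)

lemma ramp_lap (n N k : ℕ) (hN : n + k < N) (i : Fin N) :
    lap (kite n N) (ramp n N k) i =
      (if i.val = n then 1 else 0) - (if i.val = n + k then 1 else 0) := by
  induction k with
  | zero =>
    have : ramp n N 0 = fun _ => 0 := by funext i; rfl
    rw [this, lap_const]
    simp
  | succ k ih =>
    have : ramp n N (k + 1) = fun i => ramp n N k i + (if i.val ≤ n + k then 1 else 0) := by
      funext i; rfl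
    rw [this, lap_add, ih (by omega), kite_ind n N (n + k) (by omega) (by omega)]
    have : n + (k + 1) = n + k + 1 := by ring
    rw [this]
    ring

lemma kite_connected (n N : ℕ) (hN : 0 < N) : (kite n N).Connected := by
  have h0 : ∀ k : ℕ, ∀ hk : k < N, (kite n N).Reachable ⟨0, hN⟩ ⟨k, hk⟩ := by
    intro k
    induction k with
    | zero => intro hk; exact SimpleGraph.Reachable.refl _
    | succ k ih =>
      intro hk
      have : (kite n N).Adj ⟨k, by omega⟩ ⟨k + 1, hk⟩ := Or.inr (Or.inl rfl)
      exact (ih (by omega)).trans this.reachable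
  have : Nonempty (Fin N) := ⟨⟨0, hN⟩⟩
  exact SimpleGraph.Connected.mk (fun u v => (h0 u.val u.2).symm.trans (h0 v.val v.2))

lemma sum_ite_le (N n : ℕ) (hn : n < N) :
    ∑ i : Fin N, (if i.val ≤ n then (1 : ℤ) else 0) = n + 1 := by
  rw [Fin.sum_univ_eq_sum_range (fun i => if i ≤ n then (1 : ℤ) else 0) N, ← Finset.sum_filter,
    Finset.sum_const]
  have : (Finset.range N).filter (fun i => i ≤ n) = Finset.range (n + 1) := by
    ext i; simp; omega
  rw [this]
  simp

lemma sum_ite_eq' (N n : ℕ) (hn : n < N) (c : ℤ) :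
    ∑ i : Fin N, (if i.val = n then c else 0) = c := by
  rw [Finset.sum_eq_single (⟨n, hn⟩ : Fin N)]
  · simp
  · intro j _ hj
    have : j.val ≠ n := fun h => hj (Fin.ext h)
    simp [this]
  · simp

/-! ### The upper bounds -/

lemma gon_le {V : Type} [Fintype V] (G : SimpleGraph V) (D : V → ℤ) (d : ℕ) (hD : PosRank G D)
    (hs : ∑ v, D v = (d : ℤ)) : gon G ≤ d := Nat.sInf_le ⟨D, hD, hs⟩

/-- The divisor on the product: one chip on each vertex of the copy `r` of the complete graph,
and `|T| - 1` more chips on each copy of the vertex `n`. -/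
noncomputable def prodDiv (r : V) (n N : ℕ) (x : V × Fin N) : ℤ :=
  (if x.1 = r then (if x.2.val ≤ n then 1 else 0) else 0) +
    (if x.2.val = n then (Fintype.card V : ℤ) - 1 else 0)

lemma prodDiv_sum (r : V) (n N : ℕ) (hN : n < N) (hV : 1 ≤ Fintype.card V) :
    ∑ x, prodDiv r n N x = ((n + 1 + Fintype.card V * (Fintype.card V - 1) : ℕ) : ℤ) := by
  unfold prodDiv
  rw [Fintype.sum_prod_type]
  simp only
  simp_rw [Finset.sum_add_distrib, sum_ite_eq' N n hN]
  have h1 : ∀ x : V, (∑ y : Fin N, if x = r then (if y.val ≤ n then (1 : ℤ) else 0) else 0) =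
      if x = r then ((n : ℤ) + 1) else 0 := by
    intro x
    by_cases hx : x = r
    · simp only [hx, if_true]
      exact sum_ite_le N n hN
    · simp [hx]
  simp_rw [h1]
  rw [Finset.sum_ite_eq' Finset.univ r]
  simp only [Finset.mem_univ, if_true, Finset.sum_const, Finset.card_univ, nsmul_eq_mul]
  push_cast [Nat.cast_sub hV]
  ring

lemma prodDiv_posRank (T : SimpleGraph V) (hT : T.IsTree) (hV : 2 ≤ Fintype.card V) (r : V)
    (n N : ℕ) (hN : n + 1 < N) : PosRank (T □ kite n N) (prodDiv r n N) := by
  have hV' : (2 : ℤ) ≤ Fintype.card V := by exact_mod_cast hV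
  refine ⟨?_, ?_⟩
  · intro x
    unfold prodDiv
    split_ifs <;> linarith
  · rintro ⟨z, i⟩
    by_cases hi : i.val ≤ n
    · obtain ⟨g, hg, hl⟩ := tree_move T hT r z
      refine ⟨fun x => (if x.2.val ≤ n then 1 else 0) * g x.1, ?_⟩
      rintro ⟨y, j⟩
      rw [lap_box]
      have e1 : lap T (fun z => (if ((z, j) : V × Fin N).2.val ≤ n then 1 else 0) *
          g ((z, j) : V × Fin N).1) y = (if j.val ≤ n then 1 else 0) *
            ((if y = r then 1 else 0) - (if y = z then 1 else 0)) :=
        (lap_mul T _ g y).trans (by rw [hl])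
      have e2 : lap (kite n N) (fun j => (if ((y, j) : V × Fin N).2.val ≤ n then 1 else 0) *
          g ((y, j) : V × Fin N).1) j = g y *
            ((if j.val = n then 1 else 0) - (if j.val = n + 1 then 1 else 0)) := by
        simp only
        have : (fun j : Fin N => (if j.val ≤ n then (1 : ℤ) else 0) * g y) =
            fun j : Fin N => g y * (if j.val ≤ n then (1 : ℤ) else 0) := by
          funext j; ring
        rw [this, lap_mul, kite_ind n N n le_rfl hN]
      rw [e1, e2]
      unfold prodDiv
      simp only [Prod.mk.injEq, Fin.ext_iff]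
      have h1 := (hg y).1
      have h2 := (hg y).2
      rcases Classical.propComplete (y = r) with hyr | hyr <;>
        rcases Classical.propComplete (y = z) with hyz | hyz <;>
        simp only [hyr, hyz, true_and, false_and, if_true, if_false] <;>
        split_ifs <;> omega
    · obtain ⟨k, hk⟩ : ∃ k, i.val = n + k := ⟨i.val - n, by omega⟩
      refine ⟨fun x => ramp n N k x.2, ?_⟩
      rintro ⟨y, j⟩
      rw [lap_box]
      have e1 : lap T (fun z => ramp n N k ((z, j) : V × Fin N).2) y = 0 := lap_const T _ y
      have e2 : lap (kite n N) (fun j => ramp n N k ((y, j) : V × Fin N).2) j =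
            (if j.val = n then 1 else 0) - (if j.val = n + k then 1 else 0) :=
        ramp_lap n N k (by omega) j
      rw [e1, e2]
      unfold prodDiv
      simp only [Prod.mk.injEq, Fin.ext_iff]
      rcases Classical.propComplete (y = r) with hyr | hyr <;>
        rcases Classical.propComplete (y = z) with hyz | hyz <;>
        simp only [hyr, hyz, true_and, false_and, if_true, if_false] <;>
        split_ifs <;> omega

/-! ### The gonality of the kite -/

lemma kite_gon_le (n N : ℕ) (hn : 1 ≤ n) (hN : n < N) : gon (kite n N) ≤ n := by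
  refine gon_le _ (fun i => if 1 ≤ i.val ∧ i.val ≤ n then 1 else 0) n ⟨?_, ?_⟩ ?_
  · intro v
    dsimp only
    split_ifs <;> simp
  · intro i
    by_cases hi : n < i.val
    · obtain ⟨k, hk⟩ : ∃ k, i.val = n + k := ⟨i.val - n, by omega⟩
      refine ⟨ramp n N k, ?_⟩
      intro j
      rw [ramp_lap n N k (by omega) j]
      simp only [Fin.ext_iff]
      split_ifs <;> omega
    · by_cases h0 : i.val = 0
      · have hi0 : i = ⟨0, by omega⟩ := Fin.ext h0
        refine ⟨fun j => if j = i then -1 else 0, ?_⟩
        intro j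
        by_cases hj : j = i
        · have : lap (kite n N) (fun j => if j = i then -1 else 0) j ≤ -1 := by
            subst hj
            unfold lap
            have h1 : ∀ w : Fin N, (if (kite n N).Adj j w then
                ((if j = j then (-1 : ℤ) else 0) - (if w = j then -1 else 0)) else 0) ≤
                  if w = ⟨1, by omega⟩ then -1 else 0 := by
              intro w
              by_cases hw : w = ⟨1, by omega⟩
              · have : (kite n N).Adj j w := by
                  refine Or.inr (Or.inl ?_)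
                  rw [hw, h0]
                have hwj : w ≠ j := this.ne'
                rw [if_pos this, if_neg hwj, if_pos hw]
                simp
              · simp only [hw, if_false]
                split_ifs <;> simp
            refine (Finset.sum_le_sum (fun w _ => h1 w)).trans ?_
            rw [Finset.sum_ite_eq']
            simp
          simp only [hj, if_true]
          rw [hj] at this
          split_ifs <;> linarith
        · have : lap (kite n N) (fun j => if j = i then -1 else 0) j ≤
              if 1 ≤ j.val ∧ j.val ≤ n then 1 else 0 := by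
            unfold lap
            rw [Finset.sum_eq_single i]
            · by_cases hji : (kite n N).Adj j i
              · have : 1 ≤ j.val ∧ j.val ≤ n := by
                  have hj' : j.val ≠ 0 := fun h => hj (Fin.ext (by omega))
                  rcases hji with h | h | h
                  · omega
                  · omega
                  · omega
                simp [hji, this, hj]
              · simp only [hji, if_false]
                split_ifs <;> simp
            · intro w _ hw
              simp [hj, hw]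
            · simp
          simp only [hj, if_false]
          linarith
      · refine ⟨fun _ => 0, ?_⟩
        intro j
        rw [lap_const]
        simp only [Fin.ext_iff]
        split_ifs <;> omega
  · rw [Fin.sum_univ_eq_sum_range (fun i => if 1 ≤ i ∧ i ≤ n then (1 : ℤ) else 0) N,
      ← Finset.sum_filter, Finset.sum_const]
    have : (Finset.range N).filter (fun i => 1 ≤ i ∧ i ≤ n) = Finset.Icc 1 n := by
      ext i; simp; omega
    rw [this]
    simp

/-- The value of `f` at the vertex `k`. -/
def val {N : ℕ} (f : Fin N → ℤ) (k : ℕ) : ℤ := if h : k < N then f ⟨k, h⟩ else 0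

lemma val_eq {N : ℕ} (f : Fin N → ℤ) (i : Fin N) : val f i.val = f i := by
  unfold val; rw [dif_pos i.2]

lemma lap_range (n N : ℕ) (f : Fin N → ℤ) (i : Fin N) :
    lap (kite n N) f i = ∑ j ∈ range N,
      if (i.val ≠ j ∧ i.val ≤ n ∧ j ≤ n) ∨ j = i.val + 1 ∨ i.val = j + 1
        then val f i.val - val f j else 0 := by
  unfold lap
  rw [← Fin.sum_univ_eq_sum_range (fun j => if (i.val ≠ j ∧ i.val ≤ n ∧ j ≤ n) ∨ j = i.val + 1 ∨
    i.val = j + 1 then val f i.val - val f j else 0) N]
  apply Finset.sum_congr rfl
  intro j _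
  rw [val_eq, val_eq]
  have : (kite n N).Adj i j ↔ ((i.val ≠ j.val ∧ i.val ≤ n ∧ j.val ≤ n) ∨ j.val = i.val + 1 ∨
      i.val = j.val + 1) := by
    constructor
    · rintro (h | h | h)
      · exact Or.inl ⟨fun h' => h.1 (Fin.ext h'), h.2⟩
      · exact Or.inr (Or.inl h)
      · exact Or.inr (Or.inr h)
    · rintro (h | h | h)
      · exact Or.inl ⟨fun h' => h.1 (by rw [h']), h.2⟩
      · exact Or.inr (Or.inl h)
      · exact Or.inr (Or.inr h)
  by_cases h : (kite n N).Adj i j
  · rw [if_pos h, if_pos (this.1 h)]
  · rw [if_neg h, if_neg (fun h' => h (this.2 h'))]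

/-- The adjacency in the kite, on natural numbers. -/
def adjN (n i j : ℕ) : Prop := (i ≠ j ∧ i ≤ n ∧ j ≤ n) ∨ j = i + 1 ∨ i = j + 1

lemma adjN_symm (n i j : ℕ) : adjN n i j ↔ adjN n j i := by
  unfold adjN; omega

lemma val_lap (n N : ℕ) (f : Fin N → ℤ) (i : ℕ) (hi : i < N) :
    val (lap (kite n N) f) i = ∑ j ∈ range N, if adjN n i j then val f i - val f j else 0 := by
  have h0 : val (lap (kite n N) f) i = lap (kite n N) f ⟨i, hi⟩ := by
    unfold val; rw [dif_pos hi]
  rw [h0, lap_range]
  apply Finset.sum_congr rfl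
  intro j _
  by_cases h : adjN n i j
  · rw [if_pos h]
    unfold adjN at h
    rw [if_pos h]
  · rw [if_neg h]
    unfold adjN at h
    rw [if_neg h]

lemma lap_low (n N : ℕ) (hN : n < N) (f : Fin N → ℤ) (i : ℕ) (hi : i < n) :
    val (lap (kite n N) f) i = ∑ j ∈ range (n + 1), (val f i - val f j) := by
  rw [val_lap n N f i (by omega), ← Finset.sum_subset (s₁ := range (n + 1)) (s₂ := range N)]
  · apply Finset.sum_congr rfl
    intro j hj
    rw [mem_range] at hj
    by_cases hij : i = j
    · subst hij
      simp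
    · rw [if_pos]
      exact Or.inl ⟨hij, by omega, by omega⟩
  · intro x hx
    rw [mem_range] at hx ⊢
    omega
  · intro x hx hx'
    rw [mem_range] at hx hx'
    rw [if_neg]
    unfold adjN
    omega

lemma lap_high (n N : ℕ) (hN : n < N) (f : Fin N → ℤ) :
    ∑ i ∈ Ico n N, val (lap (kite n N) f) i = ∑ j ∈ range (n + 1), (val f n - val f j) := by
  have h1 : ∑ i ∈ Ico n N, val (lap (kite n N) f) i =
      ∑ i ∈ Ico n N, ((∑ j ∈ range n, if adjN n i j then val f i - val f j else 0) +
        ∑ j ∈ Ico n N, if adjN n i j then val f i - val f j else 0) := by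
    apply Finset.sum_congr rfl
    intro i hi
    rw [mem_Ico] at hi
    rw [val_lap n N f i hi.2, Finset.range_eq_Ico,
      ← Finset.sum_Ico_consecutive _ (Nat.zero_le n) hN.le, ← Finset.range_eq_Ico]
  rw [h1, Finset.sum_add_distrib]
  have h2 : ∑ i ∈ Ico n N, ∑ j ∈ Ico n N, (if adjN n i j then val f i - val f j else 0) = 0 := by
    have h3 : ∑ i ∈ Ico n N, ∑ j ∈ Ico n N, (if adjN n i j then val f i - val f j else 0) =
        - ∑ i ∈ Ico n N, ∑ j ∈ Ico n N, (if adjN n i j then val f i - val f j else 0) := by
      conv_lhs => rw [Finset.sum_comm]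
      rw [← Finset.sum_neg_distrib]
      apply Finset.sum_congr rfl
      intro i _
      rw [← Finset.sum_neg_distrib]
      apply Finset.sum_congr rfl
      intro j _
      by_cases h : adjN n i j
      · rw [if_pos h, if_pos ((adjN_symm n i j).1 h)]; ring
      · rw [if_neg h, if_neg (fun h' => h ((adjN_symm n i j).2 h'))]; ring
    linarith
  rw [h2, add_zero, Finset.sum_eq_single n]
  · rw [Finset.sum_range_succ]
    simp only [sub_self, add_zero]
    apply Finset.sum_congr rfl
    intro j hj
    rw [mem_range] at hj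
    rw [if_pos]
    exact Or.inl ⟨by omega, le_rfl, by omega⟩
  · intro i hi hin
    rw [mem_Ico] at hi
    apply Finset.sum_eq_zero
    intro j hj
    rw [mem_range] at hj
    rw [if_neg]
    unfold adjN
    omega
  · intro h
    exact absurd (mem_Ico.2 ⟨le_rfl, hN⟩) h

lemma val_sum (N : ℕ) (f : Fin N → ℤ) : ∑ i, f i = ∑ i ∈ range N, val f i := by
  rw [← Fin.sum_univ_eq_sum_range (fun j => val f j) N]
  apply Finset.sum_congr rfl
  intro i _
  rw [val_eq]

lemma val_sub3 (N : ℕ) (f g h : Fin N → ℤ) (i : ℕ) :
    val (fun w => f w - g w - h w) i = val f i - val g i - val h i := by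
  unfold val
  split_ifs <;> simp

lemma val_nonneg (N : ℕ) (f : Fin N → ℤ) (hf : ∀ i, 0 ≤ f i) (i : ℕ) : 0 ≤ val f i := by
  unfold val
  split_ifs
  · exact hf _
  · exact le_rfl

/-- An effective divisor of positive rank on the kite has degree at least `n`. -/
lemma kite_lower (n N : ℕ) (hN : n < N) (D : Fin N → ℤ) (hD : PosRank (kite n N) D) :
    (n : ℤ) ≤ ∑ i, D i := by
  by_contra hlt
  push Not at hlt
  have hpos := val_nonneg N D hD.1
  have htot : ∑ i ∈ range n, val D i + ∑ i ∈ Ico n N, val D i < n := by
    rw [val_sum, Finset.range_eq_Ico, ← Finset.sum_Ico_consecutive _ (Nat.zero_le n) hN.le,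
      ← Finset.range_eq_Ico] at hlt
    exact hlt
  -- an empty vertex of the complete graph
  obtain ⟨q, hq, hq0⟩ : ∃ q, q < n ∧ val D q = 0 := by
    by_contra hne
    push Not at hne
    have h1 : ∀ i ∈ range n, (1 : ℤ) ≤ val D i := by
      intro i hi
      rw [mem_range] at hi
      have := hpos i
      have := hne i hi
      omega
    have h2 := Finset.sum_le_sum h1
    simp only [Finset.sum_const, card_range, nsmul_eq_mul, mul_one] at h2
    have h3 : 0 ≤ ∑ i ∈ Ico n N, val D i := Finset.sum_nonneg (fun i _ => hpos i)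
    linarith
  obtain ⟨f, hf⟩ := hD.2 ⟨q, by omega⟩
  have hqN : q < N := by omega
  obtain ⟨δ, hδ1, hδ2⟩ : ∃ δ : Fin N → ℤ, δ ⟨q, hqN⟩ = 1 ∧
      ∀ w, w ≠ (⟨q, hqN⟩ : Fin N) → δ w = 0 := by
    refine ⟨fun w => if w = ⟨q, hqN⟩ then 1 else 0, by simp, ?_⟩
    intro w hw
    exact if_neg hw
  have hf' : ∀ w, 0 ≤ D w - δ w - lap (kite n N) f w := by
    intro w
    have h1 := hf w
    by_cases hw : w = ⟨q, by omega⟩
    · rw [if_pos hw] at h1
      rw [hw] at h1 ⊢
      rw [hδ1]
      exact h1
    · rw [if_neg hw] at h1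
      rw [hδ2 w hw]
      exact h1
  have hv := val_nonneg N _ hf'
  simp only [val_sub3] at hv
  have hδ0 : ∀ w, 0 ≤ δ w := by
    intro w
    by_cases hw : w = ⟨q, by omega⟩
    · rw [hw, hδ1]; norm_num
    · rw [hδ2 w hw]
  -- the retracted divisor
  obtain ⟨E, hE⟩ : ∃ E : ℕ → ℤ, ∀ i, E i = if i < n then val D i else
    if i = n then ∑ j ∈ Ico n N, val D j else 0 := ⟨_, fun _ => rfl⟩
  set φ : ℕ → ℤ := val f with hφ
  have hS : ∀ i, i ≤ n → (if i = q then (1 : ℤ) else 0) + ∑ j ∈ range (n + 1), (φ i - φ j) ≤ E i := by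
    intro i hi
    rcases hi.lt_or_eq with hi' | hi'
    · have h1 := hv i
      rw [lap_low n N hN f i hi'] at h1
      have h2 : val δ i = if i = q then 1 else 0 := by
        unfold val
        rw [dif_pos (by omega)]
        by_cases hiq : i = q
        · rw [if_pos hiq]
          subst hiq
          exact hδ1
        · rw [if_neg hiq]
          exact hδ2 _ (fun h => hiq (Fin.ext_iff.1 h))
      rw [h2] at h1
      rw [hE, if_pos hi']
      linarith
    · have h1 : 0 ≤ ∑ j ∈ Ico n N, (val D j - val δ j - val (lap (kite n N) f) j) :=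
        Finset.sum_nonneg (fun j _ => hv j)
      rw [Finset.sum_sub_distrib, Finset.sum_sub_distrib, lap_high n N hN f] at h1
      have h2 : 0 ≤ ∑ j ∈ Ico n N, val δ j :=
        Finset.sum_nonneg (fun j _ => val_nonneg N _ hδ0 j)
      rw [hE, if_neg (by omega), if_pos hi', if_neg (by omega), hi']
      linarith
  have hEpos : ∀ i, 0 ≤ E i := by
    intro i
    rw [hE]
    split_ifs
    · exact hpos i
    · exact Finset.sum_nonneg (fun i _ => hpos i)
    · exact le_rfl
  have hEsum : ∑ i ∈ range (n + 1), E i < n := by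
    rw [Finset.sum_range_succ]
    have h1 : ∑ i ∈ range n, E i = ∑ i ∈ range n, val D i := by
      apply Finset.sum_congr rfl
      intro i hi
      rw [mem_range] at hi
      rw [hE, if_pos hi]
    have h2 : E n = ∑ j ∈ Ico n N, val D j := by
      rw [hE, if_neg (lt_irrefl n), if_pos rfl]
    rw [h1, h2]
    exact htot
  -- normalise
  set ψ : ℕ → ℤ := fun i => φ i - φ q with hψ
  set S : ℤ := ∑ j ∈ range (n + 1), ψ j with hSdef
  have hS' : ∀ i, i ≤ n → (if i = q then (1 : ℤ) else 0) + ((n : ℤ) + 1) * ψ i - S ≤ E i := by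
    intro i hi
    have h1 := hS i hi
    have h2 : ∑ j ∈ range (n + 1), (φ i - φ j) = ((n : ℤ) + 1) * ψ i - S := by
      rw [hSdef]
      have : ∀ j, φ i - φ j = ψ i - ψ j := by intro j; simp only [hψ]; ring
      simp_rw [this]
      rw [Finset.sum_sub_distrib]
      simp
    rw [h2] at h1
    linarith
  have hSpos : 1 ≤ S := by
    have h1 := hS' q (by omega)
    have h2 : E q = 0 := by rw [hE, if_pos hq, hq0]
    have h3 : ψ q = 0 := by simp [hψ]
    rw [h2, h3, if_pos rfl] at h1
    linarith
  set P := (range (n + 1)).filter (fun i => 1 ≤ ψ i) with hP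
  set SP : ℤ := ∑ i ∈ P, ψ i with hSP
  have hSle : S ≤ SP := by
    rw [hSdef, hSP, ← Finset.sum_filter_add_sum_filter_not (range (n + 1)) (fun i => 1 ≤ ψ i)]
    have : ∑ i ∈ (range (n + 1)).filter (fun i => ¬ 1 ≤ ψ i), ψ i ≤ 0 := by
      apply Finset.sum_nonpos
      intro i hi
      rw [mem_filter] at hi
      omega
    linarith
  have hcard : (P.card : ℤ) ≤ SP := by
    have : ∑ i ∈ P, (1 : ℤ) ≤ SP := by
      apply Finset.sum_le_sum
      intro i hi
      exact (mem_filter.1 hi).2
    simpa using this
  have hP1 : 1 ≤ P.card := by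
    by_contra h0
    have hP0 : P = ∅ := by
      rw [← Finset.card_eq_zero]; omega
    rw [hSP, hP0, Finset.sum_empty] at hSle
    linarith
  have hPn : P.card ≤ n := by
    have : P ⊆ (range (n + 1)).erase q := by
      intro i hi
      rw [mem_erase]
      refine ⟨?_, (mem_filter.1 hi).1⟩
      rintro rfl
      have := (mem_filter.1 hi).2
      simp [hψ] at this
    have h2 := Finset.card_le_card this
    rw [Finset.card_erase_of_mem (by rw [mem_range]; omega), card_range] at h2
    omega
  have hPE : ∑ i ∈ P, (((n : ℤ) + 1) * ψ i - S) ≤ ∑ i ∈ P, E i := by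
    apply Finset.sum_le_sum
    intro i hi
    have h1 := mem_filter.1 hi
    have h2 := hS' i (by have := mem_range.1 h1.1; omega)
    have h3 : (0 : ℤ) ≤ if i = q then 1 else 0 := by split_ifs <;> simp
    linarith
  have hPE' : ∑ i ∈ P, E i ≤ ∑ i ∈ range (n + 1), E i :=
    Finset.sum_le_sum_of_subset_of_nonneg (Finset.filter_subset _ _) (fun i _ _ => hEpos i)
  rw [Finset.sum_sub_distrib, ← Finset.mul_sum, Finset.sum_const, nsmul_eq_mul] at hPE
  have hfin : (P.card : ℤ) * (n + 1 - P.card) ≤ SP * (n + 1 - P.card) := by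
    apply mul_le_mul_of_nonneg_right hcard
    have : (P.card : ℤ) ≤ n := by exact_mod_cast hPn
    linarith
  have h5 : (P.card : ℤ) * S ≤ P.card * SP := by
    apply mul_le_mul_of_nonneg_left hSle
    exact_mod_cast Nat.zero_le _
  have h6 : (0 : ℤ) ≤ ((P.card : ℤ) - 1) * (n - P.card) := by
    apply mul_nonneg
    · have : (1 : ℤ) ≤ P.card := by exact_mod_cast hP1
      linarith
    · have : (P.card : ℤ) ≤ n := by exact_mod_cast hPn
      linarith
  nlinarith

lemma kite_gon (n N : ℕ) (hn : 1 ≤ n) (hN : n < N) : gon (kite n N) = n := by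
  apply le_antisymm (kite_gon_le n N hn hN)
  unfold gon
  apply le_csInf
  · exact ⟨_, fun _ => 1, ⟨fun _ => by norm_num, fun v => ⟨fun _ => 0, fun w => by
      rw [lap_const]; split_ifs <;> norm_num⟩⟩, by simp; rfl⟩
  · rintro d ⟨D, hD, hs⟩
    have := kite_lower n N hN D hD
    rw [hs] at this
    exact_mod_cast this

/-- For every tree `T` on `t ≥ 2` vertices and every `n ≥ 2` there is a connected graph `H` on
`t * n` vertices with `gon H = n`, so that `min (|V(H)|, |V(T)| gon H) = t * n`, but
`gon (T □ H) ≤ n + 1 + t * (t - 1)`, which is less than `t * n` as soon as `n ≥ t + 2`. In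
particular, with `T` the tree on two vertices, there is such an `H` on eight vertices with
`gon (T □ H) ≤ 7`. -/
theorem result :
    (∀ (t : ℕ) (T : SimpleGraph (Fin t)), T.IsTree → 2 ≤ t → ∀ n : ℕ, 2 ≤ n →
      ∃ H : SimpleGraph (Fin (t * n)), H.Connected ∧ gon H = n ∧
        min (Fintype.card (Fin (t * n))) (Fintype.card (Fin t) * gon H) = t * n ∧
        gon (T □ H) ≤ n + 1 + t * (t - 1)) ∧
    (∀ (t : ℕ) (T : SimpleGraph (Fin t)), T.IsTree → 2 ≤ t →
      ∃ (m : ℕ) (H : SimpleGraph (Fin m)), H.Connected ∧
        gon (T □ H) < min (Fintype.card (Fin m)) (Fintype.card (Fin t) * gon H)) ∧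
    (∃ H : SimpleGraph (Fin 8), H.Connected ∧ gon H = 4 ∧
      ∀ T : SimpleGraph (Fin 2), T.IsTree → gon (T □ H) ≤ 7) := by
  have main : ∀ (t : ℕ) (T : SimpleGraph (Fin t)), T.IsTree → 2 ≤ t → ∀ n : ℕ, 2 ≤ n →
      ∀ N, n + 1 < N → gon (T □ kite n N) ≤ n + 1 + t * (t - 1) := by
    intro t T hT ht n hn N hN
    have hc : Fintype.card (Fin t) = t := Fintype.card_fin t
    have h1 := prodDiv_posRank T hT (by rw [hc]; exact ht) ⟨0, by omega⟩ n N hN
    have h2 := prodDiv_sum (⟨0, by omega⟩ : Fin t) n N (by omega) (by rw [hc]; omega)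
    rw [hc] at h2
    exact gon_le _ _ _ h1 h2
  have size : ∀ t n : ℕ, 2 ≤ t → 2 ≤ n → n + 1 < t * n := by
    intro t n ht hn
    nlinarith
  have first : ∀ (t : ℕ) (T : SimpleGraph (Fin t)), T.IsTree → 2 ≤ t → ∀ n : ℕ, 2 ≤ n →
      ∃ H : SimpleGraph (Fin (t * n)), H.Connected ∧ gon H = n ∧
        min (Fintype.card (Fin (t * n))) (Fintype.card (Fin t) * gon H) = t * n ∧
        gon (T □ H) ≤ n + 1 + t * (t - 1) := by
    intro t T hT ht n hn
    have hs := size t n ht hn
    have hg := kite_gon n (t * n) (by omega) (by omega)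
    refine ⟨kite n (t * n), kite_connected n (t * n) (by omega), hg, ?_, main t T hT ht n hn _ hs⟩
    rw [hg]
    simp
  refine ⟨first, ?_, ?_⟩
  · intro t T hT ht
    obtain ⟨H, hc, hg, hm, hu⟩ := first t T hT ht (t + 2) (by omega)
    refine ⟨t * (t + 2), H, hc, ?_⟩
    rw [hm]
    refine lt_of_le_of_lt hu ?_
    obtain ⟨s, rfl⟩ : ∃ s, t = s + 2 := ⟨t - 2, by omega⟩
    have : s + 2 - 1 = s + 1 := by omega
    rw [this]
    nlinarith
  · refine ⟨kite 4 8, kite_connected 4 8 (by omega), kite_gon 4 8 (by omega) (by omega), ?_⟩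
    intro T hT
    exact main 2 T hT le_rfl 4 (by omega) 8 (by omega)

end Pool.Agent.Results.MP_30555c_co.TreeTimesKite
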